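import Pool.Agent.Y490.HG.Loop
import Pool.Agent.Y490.HG.Val

/-!
The lattice of normal subgroups of the Haefliger group contains the power set of the natural
numbers.
-/

set_option autoImplicit false

open Pool.Agent.Helper240 Pool.Agent.Y490.HG

namespace Pool.Agent.Results.MP_58c1c9_gt.PowerSetOfNormalSubgroups

section monodromy

variable {E X : Type*} [TopologicalSpace E] [TopologicalSpace X] {p : E → X}

/-- Monodromy along a conjugated loop fixes a point iff monodromy along the loop fixes the
transported point. -/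
theorem monodromy_conj (cov : IsCoveringMap p) {b x : X} (q : Path.Homotopic.Quotient b x)
    (ρ : Path.Homotopic.Quotient x x) (e : p ⁻¹' {b}) :
    cov.monodromy (q.trans (ρ.trans q.symm)) e = e ↔
      cov.monodromy ρ (cov.monodromy q e) = cov.monodromy q e := by
  rw [cov.monodromy_trans_apply, cov.monodromy_trans_apply]
  have h1 : ∀ z, cov.monodromy q.symm (cov.monodromy q z) = z := by
    intro z
    rw [← cov.monodromy_trans_apply, Path.Homotopic.Quotient.trans_symm]
    exact congrFun cov.monodromy_refl z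
  have h2 : ∀ z, cov.monodromy q (cov.monodromy q.symm z) = z := by
    intro z
    rw [← cov.monodromy_trans_apply, Path.Homotopic.Quotient.symm_trans]
    exact congrFun cov.monodromy_refl z
  constructor
  · intro h
    have := congrArg (cov.monodromy q) h
    rwa [h2] at this
  · intro h
    rw [h, h1]

/-- If the monodromy along a loop fixes a point, there is a closed lift. -/
theorem closed_lift (cov : IsCoveringMap p) {x : X} (ρ : Path x x) (e : p ⁻¹' {x})
    (h : cov.monodromy (Path.Homotopic.Quotient.mk ρ) e = e) :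
    ∃ F : C(unitInterval, E), (∀ s, p (F s) = ρ s) ∧ F 1 = F 0 := by
  have h0 : (ρ : C(unitInterval, X)) 0 = p e := ρ.source.trans e.2.symm
  refine ⟨cov.liftPath ρ e h0, fun s => congrFun (cov.liftPath_lifts ρ e h0) s, ?_⟩
  rw [cov.liftPath_zero]
  exact congrArg Subtype.val h

/-- A closed lift shows that the monodromy fixes a point. -/
theorem monodromy_of_closed (cov : IsCoveringMap p) {x : X} (ρ : Path x x) (e : p ⁻¹' {x})
    (F : C(unitInterval, E)) (hF : ∀ s, p (F s) = ρ s) (h0 : F 0 = e) (h1 : F 1 = e) :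
    cov.monodromy (Path.Homotopic.Quotient.mk ρ) e = e := by
  have h0' : (ρ : C(unitInterval, X)) 0 = p e := ρ.source.trans e.2.symm
  have hlift : F = cov.liftPath ρ e h0' :=
    (cov.eq_liftPath_iff' h0').mpr ⟨funext hF, h0⟩
  apply Subtype.ext
  show cov.liftPath ρ e h0' 1 = e
  rw [← hlift, h1]

end monodromy

/-- The power loops, transported to the base point `b`, and the normal subgroups which contain
exactly the prescribed ones. -/
theorem main (b : BGamma) : ∃ c : ℕ → FundamentalGroup BGamma b, ∀ S : Set ℕ,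
    ∃ N : Subgroup (FundamentalGroup BGamma b), N.Normal ∧ N ≠ ⊤ ∧ ∀ m, c m ∈ N ↔ m ∈ S := by
  have hQ : ∀ n, ∃ _ : Path b (powLoop (q n) (q_odd n) (Circle.exp 0)), True := by
    intro n
    obtain ⟨Q⟩ := joined_all b (powLoop (q n) (q_odd n) (Circle.exp 0))
    exact ⟨Q, trivial⟩
  choose Q0 _ using hQ
  let Q : ∀ n, Path.Homotopic.Quotient b (powLoop (q n) (q_odd n) (Circle.exp 0)) :=
    fun n => Path.Homotopic.Quotient.mk (Q0 n)
  let R : ∀ n, Path.Homotopic.Quotient (powLoop (q n) (q_odd n) (Circle.exp 0))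
      (powLoop (q n) (q_odd n) (Circle.exp 0)) :=
    fun n => Path.Homotopic.Quotient.mk (loopPath (powLoop (q n) (q_odd n)))
  let c : ℕ → FundamentalGroup BGamma b := fun n => (Q n).trans ((R n).trans (Q n).symm)
  refine ⟨c, fun S => ?_⟩
  set H : Subgroup ℚˣ := HS (q '' S) with hH
  let _ : TopologicalSpace (LineCalc.Univ (exPG H).lineCalc) := ⊥
  have _ : DiscreteTopology (LineCalc.Univ (exPG H).lineCalc) := ⟨rfl⟩
  have cov := (exSys H).isCoveringMap
  refine ⟨(cov.monodromyPerm b).ker, inferInstance, ?_, fun m => ⟨fun hm => ?_, fun hm => ?_⟩⟩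
  · -- the doubling loop is not in the kernel
    obtain ⟨P⟩ := joined_all b (doubleLoop (Circle.exp 0))
    let P' : Path.Homotopic.Quotient b (doubleLoop (Circle.exp 0)) := Path.Homotopic.Quotient.mk P
    let R' : Path.Homotopic.Quotient (doubleLoop (Circle.exp 0)) (doubleLoop (Circle.exp 0)) :=
      Path.Homotopic.Quotient.mk (loopPath doubleLoop)
    let g : FundamentalGroup BGamma b := P'.trans (R'.trans P'.symm)
    intro htop
    have hg : g ∈ (cov.monodromyPerm b).ker := by rw [htop]; exact Subgroup.mem_top _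
    rw [MonoidHom.mem_ker] at hg
    let e : ((exSys H).core.proj) ⁻¹' {b} :=
      ⟨⟨b, (1 : LineCalc.Univ (exPG H).lineCalc)⟩, rfl⟩
    have h1 : cov.monodromy (P'.trans (R'.trans P'.symm)) e = e := by
      have := congrArg (fun σ : Equiv.Perm (((exSys H).core.proj) ⁻¹' {b}) => σ e) hg
      exact this
    rw [monodromy_conj] at h1
    obtain ⟨F, hF, hc⟩ := closed_lift cov (loopPath doubleLoop) _ h1
    exact double_not_lift_path' H F hF hc
  · -- a power loop in the kernel lifts, so its exponent is allowed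
    rw [MonoidHom.mem_ker] at hm
    let e : ((exSys H).core.proj) ⁻¹' {b} :=
      ⟨⟨b, (1 : LineCalc.Univ (exPG H).lineCalc)⟩, rfl⟩
    have h1 : cov.monodromy ((Q m).trans ((R m).trans (Q m).symm)) e = e := by
      have := congrArg (fun σ : Equiv.Perm (((exSys H).core.proj) ⁻¹' {b}) => σ e) hm
      exact this
    rw [monodromy_conj] at h1
    obtain ⟨F, hF, hc⟩ := closed_lift cov (loopPath (powLoop (q m) (q_odd m))) _ h1
    have h2 := pow_not_lift_path (q_odd m) H F hF hc
    obtain ⟨k, hk, hkm⟩ := of_HS_mem (q_prime m) h2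
    rwa [q_injective hkm] at hk
  · -- power loops with allowed exponents are in the kernel
    rw [MonoidHom.mem_ker]
    obtain ⟨r, hr, hrl⟩ := HS_mem (T := q '' S) (q_prime m) ⟨m, hm, rfl⟩
    apply Equiv.ext
    intro e
    show cov.monodromy ((Q m).trans ((R m).trans (Q m).symm)) e = e
    rw [monodromy_conj]
    set e' := cov.monodromy (Q m) e with he'
    obtain ⟨F, hF, hF0⟩ := pow_lift (q_odd m) H hr hrl ((exSys H).cd 0 e'.1)
    have hp : (F (Circle.exp 0)).proj = e'.1.proj := (hF _).trans e'.2.symm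
    have ht : 0 < (powLoop (q m) (q_odd m) (Circle.exp 0)).t 0 := by
      show 0 < 1 - (1 + im (Circle.exp 0)) / 2
      rw [im_exp, Real.sin_zero]
      norm_num
    have hFe : F (Circle.exp 0) = e'.1 := by
      refine (exSys H).ext_cd (i := 0) hp (by rw [hF]; exact ht) ?_
      rw [hF0 _ ht]
    have h0 : pathOfLift F 0 = e'.1 := by
      show F (Circle.exp (2 * Real.pi * ((0 : unitInterval) : ℝ))) = e'.1
      rw [← hFe]; simp
    exact monodromy_of_closed cov (loopPath (powLoop (q m) (q_odd m))) e' (pathOfLift F)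
      (fun s => hF _) h0 ((pathOfLift_one F).trans h0)

/-- Let `Γ = π₁(BΓ, b)` be the Haefliger group. (1) It is not simple. (2) There is a sequence
`c 0, c 1, …` of elements of `Γ` such that for every set `S` of indices the normal subgroup
generated by the `c n`, `n ∈ S`, is not the whole group and contains no other member of the
sequence. (3) The power set of `ℕ` embeds, as an ordered set, in the set of the normal subgroups
of `Γ` other than `1` and `Γ`. -/
theorem result : ∀ b : BGamma,
    (∃ N : Subgroup (FundamentalGroup BGamma b), N.Normal ∧ N ≠ ⊥ ∧ N ≠ ⊤) ∧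
    (∃ c : ℕ → FundamentalGroup BGamma b, ∀ S : Set ℕ,
      Subgroup.normalClosure (c '' S) ≠ ⊤ ∧
        ∀ m, c m ∈ Subgroup.normalClosure (c '' S) ↔ m ∈ S) ∧
    (∃ Φ : Set ℕ ↪o Subgroup (FundamentalGroup BGamma b),
      ∀ S, (Φ S).Normal ∧ Φ S ≠ ⊥ ∧ Φ S ≠ ⊤) := by
  intro b
  obtain ⟨c, hc⟩ := main b
  have key : ∀ S : Set ℕ, Subgroup.normalClosure (c '' S) ≠ ⊤ ∧
      ∀ m, c m ∈ Subgroup.normalClosure (c '' S) ↔ m ∈ S := by
    intro S
    obtain ⟨N, hN, hN1, hN2⟩ := hc S
    have hle : Subgroup.normalClosure (c '' S) ≤ N := by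
      apply Subgroup.normalClosure_le_normal
      rintro _ ⟨m, hm, rfl⟩
      exact (hN2 m).mpr hm
    refine ⟨fun h => hN1 (top_le_iff.mp (h ▸ hle)), fun m => ⟨fun h => (hN2 m).mp (hle h),
      fun h => Subgroup.subset_normalClosure ⟨m, h, rfl⟩⟩⟩
  have hne1 : ∀ m, c m ≠ 1 := by
    intro m hm
    have h := (key ∅).2 m
    rw [hm] at h
    exact h.mp (Subgroup.one_mem _)
  let ι : Set ℕ → Set ℕ := fun S => {0} ∪ Nat.succ '' S
  have hι : ∀ S T : Set ℕ, ι S ⊆ ι T ↔ S ⊆ T := by
    intro S T
    constructor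
    · intro h n hn
      have h1 : n.succ ∈ ι T := h (Or.inr ⟨n, hn, rfl⟩)
      rcases h1 with h1 | ⟨k, hk, hkn⟩
      · exact absurd h1 (Nat.succ_ne_zero n)
      · rwa [← Nat.succ_injective hkn]
    · intro h
      exact Set.union_subset_union_right _ (Set.image_mono h)
  have hΦ : ∀ S T : Set ℕ, Subgroup.normalClosure (c '' ι S) ≤ Subgroup.normalClosure (c '' ι T) ↔
      S ≤ T := by
    intro S T
    rw [← show ι S ⊆ ι T ↔ S ≤ T from hι S T]
    constructor
    · intro h m hm
      exact ((key (ι T)).2 m).mp (h (((key (ι S)).2 m).mpr hm))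
    · intro h
      exact Subgroup.normalClosure_mono (Set.image_mono h)
  have hbot : ∀ S : Set ℕ, Subgroup.normalClosure (c '' ι S) ≠ ⊥ := by
    intro S h
    have h1 : c 0 ∈ Subgroup.normalClosure (c '' ι S) := ((key (ι S)).2 0).mpr (Or.inl rfl)
    rw [h, Subgroup.mem_bot] at h1
    exact hne1 0 h1
  refine ⟨⟨Subgroup.normalClosure (c '' ι ∅), inferInstance, hbot ∅, (key (ι ∅)).1⟩,
    ⟨c, key⟩, ⟨OrderEmbedding.ofMapLEIff (fun S => Subgroup.normalClosure (c '' ι S)) hΦ, ?_⟩⟩
  intro S
  exact ⟨inferInstanceAs (Subgroup.normalClosure (c '' ι S)).Normal, hbot S, (key (ι S)).1⟩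

end Pool.Agent.Results.MP_58c1c9_gt.PowerSetOfNormalSubgroups
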